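import Pool.Agent.GBS.StmtsB
import Pool.Agent.Helper58_RF.Frame

/-! Squad GBS, row FRM: tangential orthonormal frames exist. -/

noncomputable section

open scoped ContDiff Topology RealInnerProductSpace
open Set MeasureTheory Matrix

namespace Pool.Agent.GBS.H65

open Pool.Agent.RF Pool.Agent.MVS Pool.Agent.GBS

theorem frm : FrmStmt := by
  intro G x hG hx
  have hx0 : x ≠ 0 := hx
  have hfin : Module.finrank ℝ (ℝ ∙ x)ᗮ = 4 := by
    have h1 : Module.finrank ℝ (E (Fin 5)) = 4 + 1 := by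
      rw [finrank_euclideanSpace]
      simp
    have : Fact (Module.finrank ℝ (E (Fin 5)) = 4 + 1) := ⟨h1⟩
    exact Submodule.finrank_orthogonal_span_singleton hx0
  let b : OrthonormalBasis (Fin 4) ℝ (ℝ ∙ x)ᗮ :=
    (stdOrthonormalBasis ℝ (ℝ ∙ x)ᗮ).reindex (finCongr hfin)
  let A : E (Fin 4) →L[ℝ] E (Fin 5) :=
    ((ℝ ∙ x)ᗮ).subtypeL.comp (b.repr.symm.toContinuousLinearEquiv : E (Fin 4) →L[ℝ] (ℝ ∙ x)ᗮ)
  have hA0 : ∀ v, ⟪x, A v⟫ = (0 : ℝ) := by
    intro v
    exact Submodule.mem_orthogonal_singleton_iff_inner_right.1 (b.repr.symm v).2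
  have hAinj : ∀ v, A v = 0 → v = 0 := by
    intro v hv
    have h1 : ((b.repr.symm v : (ℝ ∙ x)ᗮ) : E (Fin 5)) = 0 := hv
    have h2 : b.repr.symm v = 0 := Subtype.ext h1
    exact (LinearIsometryEquiv.map_eq_zero_iff _).1 h2
  let g : Bil (E (Fin 4)) := (G x).bilinearComp A A
  have hg : ∀ v w, g v w = G x (A v) (A w) := fun v w => rfl
  obtain ⟨e, he⟩ := Pool.Agent.RF.H58.exists_frame g
    (fun v w => hG.metric.symm x hx _ _)
    (fun v hv => hG.metric.pos x hx _ (fun h => hv (hAinj v h)))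
  refine ⟨fun a => A (e a), fun a => hA0 _, fun a c => ?_⟩
  have := he a c
  rw [hg] at this
  exact this

end Pool.Agent.GBS.H65
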